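import Pool.Agent.Lib.MP_b26ec7_al.Main

set_option autoImplicit false

namespace Pool.Agent.Results.MP_b26ec7_al.RegPowers

open Pool.Agent.Lib.MP_b26ec7_al MvPolynomial

universe u

/-- `r` is the Castelnuovo-Mumford regularity of `J`: the largest value (attained) of the degree
of a basis element of `F_i` minus `i`, in minimal graded free resolutions of `J`. -/
def IsReg {k : Type u} [Field k] {n : ℕ} (J : Ideal (MvPolynomial (Fin n) k)) (r : ℤ) : Prop :=
  IsGreatest {s : ℤ | ∃ (F : MinRes J) (i : ℕ) (b : Fin (F.rank i)), s = (F.deg i b : ℤ) - i} r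

lemma isReg_pow (n : ℕ) (G : SimpleGraph (Fin n)) (hG : G ≠ ⊥) (k : Type u) [Field k] (s : ℕ) :
    IsReg (edgeIdeal k G ^ (s + 1)) (reg (edgeIdeal k G ^ (s + 1))) := by
  obtain ⟨u, v, huv⟩ : ∃ u v, G.Adj u v := by
    by_contra hn
    push Not at hn
    exact hG (by ext a b; simp [hn a b])
  have hP := power_reg (k := k) (G := G) rg_card huv s
  have hbdd : BddAbove {r : ℤ | ∃ (F : MinRes (edgeIdeal k G ^ (s + 1))) (i : ℕ)
      (b : Fin (F.rank i)), r = (F.deg i b : ℤ) - i} := by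
    refine ⟨(Fintype.card (Fin n) : ℤ) + 2 * s, ?_⟩
    rintro r ⟨F', i, b, rfl⟩
    have := res_of_rg rfl F' hP i b
    exact sub_le_iff_le_add.2 this
  obtain ⟨F⟩ := exists_minRes (edgeIdeal k G ^ (s + 1)) (Pw G (s + 1)) (mem_pow G (s + 1))
  have hne : edgeIdeal k G ^ (s + 1) ≠ ⊥ := by
    apply pow_ne_zero
    intro h
    have : (X u * X v : MvPolynomial (Fin n) k) ∈ edgeIdeal k G :=
      Ideal.subset_span ⟨u, v, huv, rfl⟩
    rw [h] at this
    simp at this
  have hr : 0 < F.rank 0 := by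
    by_contra h0
    have : IsEmpty (Fin (F.rank 0)) := ⟨fun b => h0 (lt_of_le_of_lt (Nat.zero_le _) b.2)⟩
    apply hne
    rw [← F.span_gen, Set.range_eq_empty]
    simp
  have hn : {r : ℤ | ∃ (F : MinRes (edgeIdeal k G ^ (s + 1))) (i : ℕ) (b : Fin (F.rank i)),
      r = (F.deg i b : ℤ) - i}.Nonempty := ⟨_, F, 0, ⟨0, hr⟩, rfl⟩
  exact ⟨Int.csSup_mem hn hbdd, fun r hr => le_csSup hbdd hr⟩

/-- For every graph with at least one edge, every field and every `q ≥ 1`, the regularities of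
`I(G)` and `I(G)^q` exist and `reg I(G)^q ≤ 2q + reg I(G) - 2`. -/
theorem result (n : ℕ) (G : SimpleGraph (Fin n)) (hG : G ≠ ⊥) (k : Type u) [Field k]
    (q : ℕ) (hq : 1 ≤ q) :
    ∃ r rq : ℤ, IsReg (edgeIdeal k G) r ∧ IsReg (edgeIdeal k G ^ q) rq ∧
      rq ≤ 2 * (q : ℤ) + r - 2 := by
  refine ⟨reg (edgeIdeal k G), reg (edgeIdeal k G ^ q), ?_, ?_, main G hG q hq⟩
  · simpa using isReg_pow n G hG k 0
  · obtain ⟨s, rfl⟩ : ∃ s, q = s + 1 := ⟨q - 1, by omega⟩
    exact isReg_pow n G hG k s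

end Pool.Agent.Results.MP_b26ec7_al.RegPowers
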